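import Mathlib
import Pool.Agent.H306R2.RZ.Defs
import Pool.Agent.Helper427.Recip

set_option autoImplicit false

namespace Pool.Agent.H831R2.RZ

open Finset Filter Topology MeasureTheory Pool.Agent.H306R2.RZ
open Complex (I)

/-- `e(n/p)` -/
noncomputable def ee (p : ℕ) (t : ℝ) : ℂ := Complex.exp ((2 * Real.pi * t / p : ℝ) * I)

theorem cas_ee (p : ℕ) (t : ℝ) : cas (2 * Real.pi * t / p) = (ee p t).re + (ee p t).im := by
  unfold cas ee
  rw [Complex.exp_ofReal_mul_I_re, Complex.exp_ofReal_mul_I_im]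

theorem cas_periodic (t : ℝ) (k : ℤ) : cas (t + k * (2 * Real.pi)) = cas t := by
  unfold cas
  rw [Real.cos_add_int_mul_two_pi, Real.sin_add_int_mul_two_pi]

/-- reduction mod p -/
theorem cas_mod (p : ℕ) (hp : 0 < p) (n : ℕ) :
    cas (2 * Real.pi * (n : ℝ) / p) = cas (2 * Real.pi * (((n : ZMod p)).val : ℝ) / p) := by
  rw [ZMod.val_natCast]
  have h : (n : ℝ) = ((n % p : ℕ) : ℝ) + (p : ℝ) * ((n / p : ℕ) : ℝ) := by
    exact_mod_cast (Nat.mod_add_div n p).symm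
  have hp' : (p : ℝ) ≠ 0 := by positivity
  have h2 : 2 * Real.pi * (n : ℝ) / p = 2 * Real.pi * ((n % p : ℕ) : ℝ) / p + (((n / p : ℕ) : ℤ) : ℝ) * (2 * Real.pi) := by
    rw [h, Int.cast_natCast]
    field_simp
  rw [h2, cas_periodic]

theorem sum_range_zmod (p : ℕ) [NeZero p] (f : ZMod p → ℝ) :
    ∑ n ∈ range p, f (n : ZMod p) = ∑ x : ZMod p, f x := by
  refine Finset.sum_nbij' (fun n => (n : ZMod p)) (fun x => x.val) ?_ ?_ ?_ ?_ ?_
  · intro n _; exact mem_univ _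
  · intro x _; exact mem_range.2 (ZMod.val_lt x)
  · intro n hn; exact ZMod.val_cast_of_lt (mem_range.1 hn)
  · intro x _; exact ZMod.natCast_zmod_val x
  · intro n _; rfl

theorem sum_sq (p : ℕ) [Fact p.Prime] (hp2 : p ≠ 2) (f : ZMod p → ℝ) :
    ∑ x : ZMod p, f (x ^ 2) = ∑ a : ZMod p, ((quadraticChar (ZMod p) a : ℤ) + 1 : ℝ) * f a := by
  have h1 : ∑ x : ZMod p, f (x ^ 2) = ∑ a : ZMod p, ∑ x ∈ univ.filter (fun x : ZMod p => x ^ 2 = a), f (x ^ 2) := by
    rw [Finset.sum_fiberwise]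
  rw [h1]
  refine Finset.sum_congr rfl (fun a _ => ?_)
  have h2 : ∑ x ∈ univ.filter (fun x : ZMod p => x ^ 2 = a), f (x ^ 2) =
      ∑ x ∈ univ.filter (fun x : ZMod p => x ^ 2 = a), f a := by
    refine Finset.sum_congr rfl (fun x hx => ?_)
    rw [(mem_filter.1 hx).2]
  rw [h2, Finset.sum_const, nsmul_eq_mul]
  congr 1
  have h3 := quadraticChar_card_sqrts (F := ZMod p) (by rwa [ZMod.ringChar_zmod_n]) a
  have h4 : (({x : ZMod p | x ^ 2 = a} : Set (ZMod p)).toFinset) = univ.filter (fun x : ZMod p => x ^ 2 = a) := by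
    ext x; simp
  rw [h4] at h3
  exact_mod_cast h3

theorem gauss_C (p : ℕ) (hp : Odd p) [NeZero p] :
    ∑ n ∈ range p, ee p ((n ^ 2 : ℕ) : ℝ) =
      (Real.sqrt (p / (2:ℕ)) : ℂ) * Complex.exp (Real.pi * I / 4) *
        (1 + Complex.exp (-(Real.pi * I * p / 2))) := by
  have hr := Recip.reciprocity 2 p 0 (by simp)
  have h1 : ∑ n : Fin p, Complex.exp (Real.pi * I * ((2 : ℕ) * ((n : ℕ) : ℂ) ^ 2 + ((0:ℤ):ℂ) * ((n : ℕ) : ℂ)) / p) =
      ∑ n ∈ range p, ee p ((n ^ 2 : ℕ) : ℝ) := by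
    rw [Finset.sum_range]
    refine Finset.sum_congr rfl (fun n _ => ?_)
    unfold ee
    congr 1
    push_cast
    ring
  rw [h1] at hr
  rw [hr, Fin.sum_univ_two]
  have h2 : Complex.exp (-(Real.pi * I * ((0:ℤ):ℂ) ^ 2 / (4 * (2:ℕ) * p))) = 1 := by simp
  rw [h2, mul_one]
  congr 2
  · simp
  · congr 1
    simp
    ring

theorem re_im_rot (p : ℕ) (hp : Odd p) :
    (Complex.exp (Real.pi * I / 4) * (1 + Complex.exp (-(Real.pi * I * p / 2)))).re +
    (Complex.exp (Real.pi * I / 4) * (1 + Complex.exp (-(Real.pi * I * p / 2)))).im = Real.sqrt 2 := by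
  have e1 : Complex.exp (Real.pi * I / 4) = (Real.sqrt 2 / 2 : ℝ) + (Real.sqrt 2 / 2 : ℝ) * I := by
    have : (Real.pi * I / 4 : ℂ) = ((Real.pi / 4 : ℝ) : ℂ) * I := by push_cast; ring
    rw [this, Complex.exp_mul_I, ← Complex.ofReal_cos, ← Complex.ofReal_sin, Real.cos_pi_div_four,
      Real.sin_pi_div_four]
  obtain ⟨k, hk⟩ := hp
  have e2 : Complex.exp (-(Real.pi * I * p / 2)) = (-1) ^ k * (-I) := by
    have : (-(Real.pi * I * p / 2) : ℂ) = -((k:ℂ) * (Real.pi * I)) + (-(Real.pi / 2 : ℂ)) * I := by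
      rw [hk]; push_cast; ring
    rw [this, Complex.exp_add]
    congr 1
    · rw [Complex.exp_neg, Complex.exp_nat_mul, Complex.exp_pi_mul_I]
      rcases Nat.even_or_odd k with h | h
      · rw [h.neg_one_pow]; simp
      · rw [h.neg_one_pow]; norm_num
    · rw [Complex.exp_mul_I, Complex.cos_neg, Complex.sin_neg]
      simp
  rw [e1, e2]
  rcases Nat.even_or_odd k with h | h
  · rw [h.neg_one_pow]
    simp
  · rw [h.neg_one_pow]
    simp

theorem gauss_val (p : ℕ) (hp : Odd p) [NeZero p] :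
    ∑ n ∈ range p, cas (2 * Real.pi * ((n ^ 2 : ℕ) : ℝ) / p) = Real.sqrt p := by
  have h1 := gauss_C p hp
  have h2 : ∑ n ∈ range p, cas (2 * Real.pi * ((n ^ 2 : ℕ) : ℝ) / p) =
      (∑ n ∈ range p, ee p ((n ^ 2 : ℕ) : ℝ)).re + (∑ n ∈ range p, ee p ((n ^ 2 : ℕ) : ℝ)).im := by
    rw [Complex.re_sum, Complex.im_sum, ← Finset.sum_add_distrib]
    exact Finset.sum_congr rfl (fun n _ => cas_ee p _)
  rw [h2, h1, mul_assoc, Complex.re_ofReal_mul, Complex.im_ofReal_mul, ← mul_add, re_im_rot p hp,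
    ← Real.sqrt_mul (by positivity)]
  congr 1
  push_cast
  ring

theorem sum_cas_zero (p : ℕ) (hp : 1 < p) :
    ∑ n ∈ range p, cas (2 * Real.pi * (n : ℝ) / p) = 0 := by
  have h2 : ∑ n ∈ range p, cas (2 * Real.pi * (n : ℝ) / p) =
      (∑ n ∈ range p, ee p (n : ℝ)).re + (∑ n ∈ range p, ee p (n : ℝ)).im := by
    rw [Complex.re_sum, Complex.im_sum, ← Finset.sum_add_distrib]
    exact Finset.sum_congr rfl (fun n _ => cas_ee p _)
  have h3 : ∑ n ∈ range p, ee p (n : ℝ) = 0 := by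
    have := (Complex.isPrimitiveRoot_exp p (by omega)).geom_sum_eq_zero hp
    rw [← this]
    refine Finset.sum_congr rfl (fun n _ => ?_)
    unfold ee
    rw [← Complex.exp_nat_mul]
    congr 1
    push_cast
    ring
  rw [h2, h3]
  simp

theorem P3s (p : ℕ) (hp : p.Prime) (hp2 : p ≠ 2) : Gk 1 p = Real.sqrt p := by
  haveI : Fact p.Prime := ⟨hp⟩
  haveI : NeZero p := ⟨hp.ne_zero⟩
  have hodd : Odd p := hp.odd_of_ne_two hp2
  set f : ZMod p → ℝ := fun x => cas (2 * Real.pi * (x.val : ℝ) / p) with hf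
  have h1 := gauss_val p hodd
  have h2 : ∑ n ∈ range p, cas (2 * Real.pi * ((n ^ 2 : ℕ) : ℝ) / p) =
      ∑ n ∈ range p, f ((n : ZMod p) ^ 2) := by
    refine Finset.sum_congr rfl (fun n _ => ?_)
    rw [cas_mod p hp.pos, hf]
    simp only [Nat.cast_pow]
  have h3 : ∑ n ∈ range p, f ((n : ZMod p) ^ 2) = ∑ x : ZMod p, f (x ^ 2) :=
    sum_range_zmod p (fun x => f (x ^ 2))
  rw [h2, h3, sum_sq p hp2 f] at h1
  have h4 : ∑ a : ZMod p, ((quadraticChar (ZMod p) a : ℤ) + 1 : ℝ) * f a =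
      ∑ a : ZMod p, ((quadraticChar (ZMod p) a : ℤ) : ℝ) * f a + ∑ a : ZMod p, f a := by
    rw [← Finset.sum_add_distrib]
    refine Finset.sum_congr rfl (fun a _ => by ring)
  have h5 : ∑ a : ZMod p, f a = 0 := by
    rw [← sum_range_zmod p f, ← sum_cas_zero p hp.one_lt]
    refine Finset.sum_congr rfl (fun n _ => ?_)
    rw [hf, cas_mod p hp.pos n]
  rw [h4, h5, add_zero] at h1
  rw [← h1, ← sum_range_zmod p (fun a => ((quadraticChar (ZMod p) a : ℤ) : ℝ) * f a)]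
  unfold Gk
  refine Finset.sum_congr rfl (fun n _ => ?_)
  congr 1
  · unfold js
    rw [← jacobiSym.legendreSym.to_jacobiSym]
    unfold legendreSym
    simp
  · rw [hf]
    simp only [Int.cast_one, mul_one]
    exact cas_mod p hp.pos n

end Pool.Agent.H831R2.RZ
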